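import Pool.Agent.Helper40.TDF.Stmt

set_option autoImplicit false

/-!
MP_b7840d_al, Q1: all linear maps `X` with `X V*_i ⊆ V*_0 + ⋯ + V*_i` and
`X V_i ⊆ V_{i-1} + V_i + V_{i+1}` (`0 ≤ i ≤ d`), for an arbitrary tridiagonal pair `A, A* = B`.

Definitions are in `Pool.Agent.Helper40.TDF.Defs` (`IsFlagTri`, `FlagTri`, `Dat`, `termF`, `termG`,
`termH`, `termL`, `OnZero`, `OnOne`, `OnSucc`, `IsMap`, `Supp`, `InRange`, `Makes`, `Covers`, `nn`,
`DimFlagTri`), and in the library files `Pool.Graph.R_seed8.R841.TD.Defs` (`str`, `TT`, `AA`), `.Dec` (`II`), `.Fin`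
(`Low`, `tau`, `Fam`, `ap`, `Recur`, `Irred`, `StringDecomp`, `DimEigenspaces`) and
`Pool.Graph.R_seed8.Helper9.TDBasic` (`TDOrdering`).
-/

open Module Polynomial Pool.Agent.R841.TD Pool.Agent.Helper40.TDF
open Pool.Agent.Helper9.TD (TDOrdering)

namespace Pool.Agent.Results.MP_b7840d_al.FlagTridiagonalMaps

/-- Let `A, B` be a tridiagonal pair, `V_i`, `V*_i` (`0 ≤ i ≤ d`) the eigenspaces of `A`, `B` for
`a i`, `b i` in a standard order, `L_j = (V*_0 + ⋯ + V*_j) ∩ (V_j + ⋯ + V_{d-j})` (`Low`), and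
`τ_{j,s} = ∏_{h<s} (A - a_{j+h})` (`tau`).

1. (`StringDecomp`) Every `v` is uniquely `∑ τ_{j,s} q_{j,s}` (`2j + s ≤ d`, `q_{j,s} ∈ L_j`).
2. There is a `β` with `a_i - a_{i+3} = (β+1) (a_{i+1} - a_{i+2})` for `i + 3 ≤ d`.
3. For each such `β`: put `T_{-1} = T_0 = 0, T_1 = 1, T_{n+2} = β T_{n+1} - T_n + 1`, and
   `α_{j,s} = ∑_{t<s} (a_{j+t} - a_{d-j-t})`. For each family `D` of linear maps
   `f0_j, f1_j, f2_j, f3_j : L_j → L_j`, `g1_j, g2_j, g3_j : L_j → L_{j+1}`,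
   `h1_j, h2_j, h3_j : L_{j+1} → L_j`, `k_j : L_j → L_{j+2}`, `l_j : L_{j+2} → L_j`
   there is exactly one linear map `X` with (`IsMap`), for `2j + s ≤ d` and `q ∈ L_j`,
   `X τ_{j,s} q = τ_{j,s} f0_j q + α_{j,s} τ_{j,s-1} (f1_j q + A f2_j q)
     + T_{s-1} τ_{j,s-1} (A - a_{d-j}) f3_j q
     + T_{s-1} τ_{j+1,s-2} (g1_j q + A g2_j q + a_{j+s} g3_j q) + T_s τ_{j+1,s-1} g3_j q
     + T_{s-1} τ_{j+1,s-2} k_j q
     + T_{d+1-2j-s} τ_{j-1,s} (h1_{j-1} q + A h2_{j-1} q + a_{j+s} h3_{j-1} q)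
     + T_{d-2j-s} τ_{j-1,s+1} h3_{j-1} q
     + T_{d+1-2j-s} τ_{j-2,s+1} (A - a_{d-j+2}) l_{j-2} q`
   (the terms with `h` only for `j ≥ 1`, the term with `l` only for `j ≥ 2`),
   and it satisfies both conditions of the problem (`Makes`). Every `X` that satisfies both
   conditions arises in this way from exactly one family that is in range (`Covers`), that is,
   `f0_j = 0` unless `2j ≤ d`; `f1_j = f2_j = 0` unless `2j+1 ≤ d`;
   `f3_j = g1_j = g3_j = h1_j = h2_j = 0` unless `2j+2 ≤ d`; `g2_j = h3_j = 0` unless `2j+3 ≤ d`;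
   `k_j = l_j = 0` unless `2j+4 ≤ d`.
4. (`DimFlagTri`) The dimension of the space of all `X` is, with `n_j = dim L_j`,
   `∑_{2j≤d} n_j² + 2 ∑_{2j+1≤d} n_j² + ∑_{2j+2≤d} n_j² + 4 ∑_{2j+2≤d} n_j n_{j+1}
     + 2 ∑_{2j+3≤d} n_j n_{j+1} + 2 ∑_{2j+4≤d} n_j n_{j+2}`.
5. (`DimEigenspaces`) `dim V_i = ∑_{j ≤ min(i, d-i)} n_j` (so `n_j = dim V_j - dim V_{j-1}` for
   `2j ≤ d`, and the dimension in 4 is explicit in the dimensions of the eigenspaces). -/
theorem result {K : Type*} [Field K] {V : Type*} [AddCommGroup V] [Module K V]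
    [FiniteDimensional K V] {A B : Module.End K V} {d : ℕ} {a b : ℕ → K}
    (hA : TDOrdering A B d a) (hB : TDOrdering B A d b) (irred : Irred A B) :
    StringDecomp A B d a b ∧
    (∃ β : K, Recur d a β) ∧
    (∀ β : K, Recur d a β → Makes A B d a b β ∧ Covers A B d a b β) ∧
    DimFlagTri A B d a b ∧ DimEigenspaces A B d a b := by
  obtain ⟨h1, h2, -⟩ := Pool.Agent.R841.TD.main hA hB irred
  exact ⟨h1, h2, fun β hβ => main_makes hA hB irred β hβ,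
    Pool.Agent.Helper40.TDF.main_dim hA hB irred, (Pool.Agent.R841.TD.main_dim hA hB irred).2⟩

end Pool.Agent.Results.MP_b7840d_al.FlagTridiagonalMaps
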